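import Pool.Agent.Lib.MP_db984e_an.Fourier

open Complex Polynomial

namespace Pool.Agent.Lib.MP_db984e_an

/-- The sequence of values of `g` along a word, extended by `0`. -/
noncomputable def G (w : List (Fin 32)) (i : ℕ) : ℂ := (w[i]?).elim 0 g

lemma G_cons_zero (a : Fin 32) (w : List (Fin 32)) : G (a :: w) 0 = g a := rfl

lemma G_cons_succ (a : Fin 32) (w : List (Fin 32)) (i : ℕ) : G (a :: w) (i + 1) = G w i := rfl

lemma G_of_le {w : List (Fin 32)} {i : ℕ} (h : w.length ≤ i) : G w i = 0 := by
  unfold G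
  rw [List.getElem?_eq_none h]
  rfl

lemma norm_G_le (w : List (Fin 32)) (i : ℕ) : ‖G w i‖ ≤ 1 := by
  unfold G
  cases w[i]? with
  | none => simp
  | some a => exact norm_g_le a

lemma G_append_left {u v : List (Fin 32)} {i : ℕ} (h : i < u.length) :
    G (u ++ v) i = G u i := by
  unfold G
  rw [List.getElem?_append_left h]

lemma G_append_right {u v : List (Fin 32)} {i : ℕ} (h : u.length ≤ i) :
    G (u ++ v) i = G v (i - u.length) := by
  unfold G
  rw [List.getElem?_append_right h]

lemma G_map_rot (p : ℕ) (w : List (Fin 32)) (i : ℕ) : G (w.map (rot p)) i = zeta ^ p * G w i := by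
  unfold G
  rw [List.getElem?_map]
  cases w[i]? with
  | none => simp
  | some a => exact g_rot p a

lemma F_eq_sum (z : ℂ) (w : List (Fin 32)) :
    F z w = ∑ i ∈ Finset.range w.length, G w i * z ^ i := by
  induction w with
  | nil => simp [F]
  | cons a w ih =>
    rw [List.length_cons, Finset.sum_range_succ']
    simp only [G_cons_zero, G_cons_succ, pow_zero, mul_one, F, ih, Finset.mul_sum]
    rw [add_comm]
    congr 1
    apply Finset.sum_congr rfl
    intro i _
    ring

/-- The autocorrelation of a word at lag `k`. -/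
noncomputable def ac (k : ℕ) (w : List (Fin 32)) : ℂ :=
  ∑ i ∈ Finset.range w.length, G w (i + k) * (starRingEnd ℂ) (G w i)

/-- The generating polynomial of a word. -/
noncomputable def PP (w : List (Fin 32)) : ℂ[X] := ∑ i ∈ Finset.range w.length, C (G w i) * X ^ i

/-- The reversed conjugate generating polynomial of a word. -/
noncomputable def QQ (M : ℕ) (w : List (Fin 32)) : ℂ[X] :=
  ∑ j ∈ Finset.range w.length, C ((starRingEnd ℂ) (G w j)) * X ^ (M - j)

lemma eval_PP (z : ℂ) (w : List (Fin 32)) : (PP w).eval z = F z w := by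
  rw [F_eq_sum, PP, eval_finsetSum]
  apply Finset.sum_congr rfl
  intro i _
  simp

lemma eval_QQ {z : ℂ} (hz : normSq z = 1) {M : ℕ} {w : List (Fin 32)} (hM : w.length ≤ M) :
    (QQ M w).eval z = z ^ M * (starRingEnd ℂ) (F z w) := by
  rw [F_eq_sum, QQ, eval_finsetSum, map_sum, Finset.mul_sum]
  apply Finset.sum_congr rfl
  intro i hi
  rw [Finset.mem_range] at hi
  simp only [eval_mul, eval_C, eval_pow, eval_X, map_mul, map_pow]
  have h1 : z * (starRingEnd ℂ) z = 1 := by rw [mul_conj, hz]; simp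
  have h2 : z ^ M = z ^ (M - i) * z ^ i := by rw [← pow_add]; congr 1; omega
  rw [h2]
  have h3 : z ^ i * (starRingEnd ℂ) z ^ i = 1 := by rw [← mul_pow, h1, one_pow]
  linear_combination (-(starRingEnd ℂ) (G w i) * z ^ (M - i)) * h3

lemma coeff_PQ (k : ℕ) {M : ℕ} {w : List (Fin 32)} (hM : w.length ≤ M) :
    (PP w * QQ M w).coeff (M + k) = ac k w := by
  rw [PP, QQ, Finset.sum_mul_sum, finsetSum_coeff]
  simp_rw [finsetSum_coeff]
  rw [Finset.sum_comm, ac]
  apply Finset.sum_congr rfl
  intro j hj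
  rw [Finset.mem_range] at hj
  have h1 : ∀ i ∈ Finset.range w.length,
      (C (G w i) * X ^ i * (C ((starRingEnd ℂ) (G w j)) * X ^ (M - j))).coeff (M + k) =
      if i = j + k then G w i * (starRingEnd ℂ) (G w j) else 0 := by
    intro i _
    have h2 : C (G w i) * X ^ i * (C ((starRingEnd ℂ) (G w j)) * X ^ (M - j)) =
        C (G w i * (starRingEnd ℂ) (G w j)) * X ^ (i + (M - j)) := by
      rw [C_mul, pow_add]; ring
    rw [h2, coeff_C_mul_X_pow]
    by_cases h : i = j + k
    · rw [if_pos h, if_pos (by omega)]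
    · rw [if_neg h, if_neg (by omega)]
  rw [Finset.sum_congr rfl h1, Finset.sum_ite_eq' (Finset.range w.length) (j + k)
    (fun i => G w i * (starRingEnd ℂ) (G w j))]
  split_ifs with h
  · rfl
  · rw [Finset.mem_range, not_lt] at h
    rw [G_of_le h, zero_mul]

lemma infinite_circle : {z : ℂ | normSq z = 1}.Infinite := by
  apply Set.infinite_of_injective_forall_mem
    (f := fun n : ℕ => (⟨((n:ℝ) ^ 2 - 1) / ((n:ℝ) ^ 2 + 1), 2 * n / ((n:ℝ) ^ 2 + 1)⟩ : ℂ))
  · intro a b hab
    simp only [Complex.mk.injEq] at hab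
    have h1 := hab.1
    have ha : ((a:ℝ) ^ 2 + 1) ≠ 0 := by positivity
    have hb : ((b:ℝ) ^ 2 + 1) ≠ 0 := by positivity
    rw [div_eq_div_iff ha hb] at h1
    have h2 : (a:ℝ) ^ 2 = (b:ℝ) ^ 2 := by nlinarith
    have h3 : (a:ℝ) = b := by
      have := abs_eq_abs.mpr (sq_eq_sq_iff_eq_or_eq_neg.mp h2)
      simpa using this
    exact_mod_cast h3
  · intro n
    simp only [Set.mem_ofPred_eq, normSq_apply]
    have ha : ((n:ℝ) ^ 2 + 1) ≠ 0 := by positivity
    field_simp
    ring

lemma ac_identity (n : ℕ) {k : ℕ} (hk : 1 ≤ k) :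
    ((√2 / 2 : ℝ) : ℂ) * ac k (W sg n 0) + ((√2 / 2 : ℝ) : ℂ) * ac k (W sg n 8) +
      ac k (W sg n 16) + ac k (W sg n 24) = 0 := by
  obtain ⟨h1, h2⟩ := length_W n
  set M := (W sg n 0).length + (W sg n 16).length with hM
  set s : ℂ := ((√2 / 2 : ℝ) : ℂ) with hs
  set p : ℂ[X] := C s * (PP (W sg n 0) * QQ M (W sg n 0)) + C s * (PP (W sg n 8) * QQ M (W sg n 8))
    + (PP (W sg n 16) * QQ M (W sg n 16)) + (PP (W sg n 24) * QQ M (W sg n 24)) -
    C ((((2 + √2) ^ n : ℝ)) : ℂ) * X ^ M with hp
  have hp0 : p = 0 := by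
    apply Polynomial.eq_zero_of_infinite_isRoot
    apply infinite_circle.mono
    intro z hz
    simp only [Set.mem_ofPred_eq] at hz
    have he := energy_eq hz n
    simp only [Set.mem_ofPred_eq, IsRoot.def, hp, eval_sub, eval_add, eval_mul, eval_C, eval_pow,
      eval_X, eval_PP]
    rw [eval_QQ hz (by omega), eval_QQ hz (by omega), eval_QQ hz (by omega),
      eval_QQ hz (by omega), ← he]
    have hc : ∀ u : ℂ, u * (z ^ M * (starRingEnd ℂ) u) = z ^ M * ((normSq u : ℝ) : ℂ) := by
      intro u
      rw [← mul_conj]; ring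
    simp only [hc]
    unfold energy
    push_cast
    rw [hs]
    push_cast
    ring
  have hcoef := congrArg (fun q => q.coeff (M + k)) hp0
  simp only [hp, coeff_sub, coeff_add, coeff_C_mul, coeff_zero] at hcoef
  rw [coeff_PQ k (by omega), coeff_PQ k (by omega), coeff_PQ k (by omega), coeff_PQ k (by omega),
    coeff_X_pow, if_neg (by omega), mul_zero, sub_zero] at hcoef
  exact hcoef

lemma ac_map_rot (k p : ℕ) (w : List (Fin 32)) : ac k (w.map (rot p)) = ac k w := by
  unfold ac
  rw [List.length_map]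
  apply Finset.sum_congr rfl
  intro i _
  rw [G_map_rot, G_map_rot, map_mul, map_pow]
  have h1 : zeta * (starRingEnd ℂ) zeta = 1 := by rw [mul_conj, normSq_zeta]; simp
  have h3 : zeta ^ p * (starRingEnd ℂ) zeta ^ p = 1 := by rw [← mul_pow, h1, one_pow]
  linear_combination (G w (i + k) * (starRingEnd ℂ) (G w i)) * h3

lemma norm_ac_le (k : ℕ) (w : List (Fin 32)) : ‖ac k w‖ ≤ w.length := by
  unfold ac
  refine (norm_sum_le _ _).trans ?_
  calc ∑ i ∈ Finset.range w.length, ‖G w (i + k) * (starRingEnd ℂ) (G w i)‖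
      ≤ ∑ i ∈ Finset.range w.length, (1 : ℝ) := by
        apply Finset.sum_le_sum
        intro i _
        rw [norm_mul, RCLike.norm_conj]
        exact mul_le_one₀ (norm_G_le _ _) (norm_nonneg _) (norm_G_le _ _)
    _ = w.length := by simp

lemma ac_append (k : ℕ) (u v : List (Fin 32)) : ‖ac k (u ++ v) - (ac k u + ac k v)‖ ≤ k := by
  have h1 : ac k (u ++ v) - (ac k u + ac k v) =
      ∑ i ∈ Finset.range u.length, (G (u ++ v) (i + k) - G u (i + k)) * (starRingEnd ℂ) (G u i) := by
    unfold ac
    rw [List.length_append, Finset.sum_range_add]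
    have e1 : ∑ i ∈ Finset.range u.length, G (u ++ v) (i + k) * (starRingEnd ℂ) (G (u ++ v) i) =
        ∑ i ∈ Finset.range u.length, G (u ++ v) (i + k) * (starRingEnd ℂ) (G u i) := by
      apply Finset.sum_congr rfl
      intro i hi
      rw [Finset.mem_range] at hi
      rw [G_append_left hi]
    have e2 : ∑ i ∈ Finset.range v.length, G (u ++ v) (u.length + i + k) *
        (starRingEnd ℂ) (G (u ++ v) (u.length + i)) =
        ∑ i ∈ Finset.range v.length, G v (i + k) * (starRingEnd ℂ) (G v i) := by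
      apply Finset.sum_congr rfl
      intro i _
      rw [G_append_right (by omega), G_append_right (by omega)]
      congr 3 <;> omega
    rw [e1, e2]
    simp only [sub_mul, Finset.sum_sub_distrib]
    ring
  rw [h1]
  refine (norm_sum_le _ _).trans ?_
  have h2 : ∀ i ∈ Finset.range u.length,
      ‖(G (u ++ v) (i + k) - G u (i + k)) * (starRingEnd ℂ) (G u i)‖ ≤
        if u.length ≤ i + k then 1 else 0 := by
    intro i _
    split_ifs with h
    · rw [G_of_le h, sub_zero, norm_mul, RCLike.norm_conj]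
      exact mul_le_one₀ (norm_G_le _ _) (norm_nonneg _) (norm_G_le _ _)
    · rw [G_append_left (not_le.mp h), sub_self, zero_mul, norm_zero]
  refine (Finset.sum_le_sum h2).trans ?_
  rw [Finset.sum_boole]
  have h3 : ((Finset.range u.length).filter (fun i => u.length ≤ i + k)) ⊆
      Finset.Ico (u.length - k) u.length := by
    intro i hi
    simp only [Finset.mem_filter, Finset.mem_range] at hi
    simp only [Finset.mem_Ico]
    omega
  have h4 := Finset.card_le_card h3
  rw [Nat.card_Ico] at h4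
  have h5 : ((Finset.range u.length).filter (fun i => u.length ≤ i + k)).card ≤ k := by omega
  exact_mod_cast h5

end Pool.Agent.Lib.MP_db984e_an
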