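import Pool.Agent.Lib.MP_db984e_an.Autocorr

namespace Pool.Agent.Lib.MP_db984e_an

/-- The additive functional with weight `ρ`. -/
def phi (ρ : Fin 32 → ℝ) (w : List (Fin 32)) : ℝ := (w.map ρ).sum

lemma phi_append (ρ : Fin 32 → ℝ) (u v : List (Fin 32)) : phi ρ (u ++ v) = phi ρ u + phi ρ v := by
  simp [phi]

lemma phi_flatMap (ρ : Fin 32 → ℝ) (f : Fin 32 → List (Fin 32)) (w : List (Fin 32)) :
    phi ρ (w.flatMap f) = phi (fun a => phi ρ (f a)) w := by
  induction w with
  | nil => rfl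
  | cons a w ih =>
    rw [List.flatMap_cons, phi_append, ih]
    simp [phi]

lemma abs_phi_le {ρ : Fin 32 → ℝ} (hρ : ∀ a, |ρ a| ≤ 1) (w : List (Fin 32)) :
    |phi ρ w| ≤ w.length := by
  induction w with
  | nil => simp [phi]
  | cons a w ih =>
    have h1 : phi ρ (a :: w) = ρ a + phi ρ w := by simp [phi]
    rw [h1, List.length_cons]
    push_cast
    have := abs_add_le (ρ a) (phi ρ w)
    linarith [hρ a]

/-- Discrepancy weights. -/
noncomputable def rhoD (a : Fin 32) : ℝ := if a.val / 8 ≤ 1 then 1 else -(√2 / 2)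

/-- Discrepancy weights. -/
noncomputable def rhoC (a : Fin 32) : ℝ :=
  if a.val / 8 = 2 then 1 else if a.val / 8 = 3 then -1 else 0

/-- Discrepancy weights. -/
noncomputable def rhoA (a : Fin 32) : ℝ :=
  if a.val / 8 = 0 then 1 else if a.val / 8 = 1 then -1 else 0

lemma rot_div (p : ℕ) (a : Fin 32) : (rot p a).val / 8 = a.val / 8 := by
  simp only [rot]; omega

lemma phi_map_rot {ρ : Fin 32 → ℝ} (hρ : ∀ p a, ρ (rot p a) = ρ a) (p : ℕ) (w : List (Fin 32)) :
    phi ρ (w.map (rot p)) = phi ρ w := by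
  unfold phi
  rw [List.map_map]
  congr 1
  apply List.map_congr_left
  intro a _
  exact hρ p a

lemma phi_sg {ρ : Fin 32 → ℝ} (hρ : ∀ p a, ρ (rot p a) = ρ a) (a : Fin 32) :
    phi ρ (sg a) = phi ρ (tau (a.val / 8)) := by
  unfold sg
  rw [phi_map_rot hρ]

lemma rhoD_rot (p : ℕ) (a : Fin 32) : rhoD (rot p a) = rhoD a := by
  unfold rhoD; rw [rot_div]

lemma rhoC_rot (p : ℕ) (a : Fin 32) : rhoC (rot p a) = rhoC a := by
  unfold rhoC; rw [rot_div]

lemma rhoA_rot (p : ℕ) (a : Fin 32) : rhoA (rot p a) = rhoA a := by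
  unfold rhoA; rw [rot_div]

lemma div_cases (a : Fin 32) : a.val / 8 = 0 ∨ a.val / 8 = 1 ∨ a.val / 8 = 2 ∨ a.val / 8 = 3 := by
  omega

lemma phiD_sg (a : Fin 32) : phi rhoD (sg a) = (2 - √2) * rhoD a := by
  have h : √2 * √2 = 2 := Real.mul_self_sqrt (by norm_num)
  rw [phi_sg rhoD_rot]
  rcases div_cases a with h0 | h0 | h0 | h0 <;> rw [h0] <;>
    simp only [phi, tau, List.map_cons, List.map_nil, List.sum_cons, List.sum_nil, rhoD, h0] <;>
    norm_num [Fin.val_ofNat] <;> linarith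

lemma phiC_sg (a : Fin 32) : phi rhoC (sg a) = 0 := by
  rw [phi_sg rhoC_rot]
  rcases div_cases a with h0 | h0 | h0 | h0 <;> rw [h0] <;>
    simp [phi, tau, rhoC]

lemma phiA_sg (a : Fin 32) : phi rhoA (sg a) = rhoC a := by
  rw [phi_sg rhoA_rot]
  rcases div_cases a with h0 | h0 | h0 | h0 <;> rw [h0] <;>
    simp [phi, tau, rhoA, rhoC, h0]

lemma phi_smul (c : ℝ) (ρ : Fin 32 → ℝ) (w : List (Fin 32)) :
    phi (fun a => c * ρ a) w = c * phi ρ w := by
  induction w with
  | nil => simp [phi]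
  | cons a w ih =>
    have h1 : ∀ ρ' : Fin 32 → ℝ, phi ρ' (a :: w) = ρ' a + phi ρ' w := fun ρ' => by simp [phi]
    rw [h1, h1, ih]
    ring

lemma length_sg_le (a : Fin 32) : (sg a).length ≤ 4 := by
  unfold sg
  rw [List.length_map]
  rcases div_cases a with h0 | h0 | h0 | h0 <;> rw [h0] <;> decide

lemma three_le_length_sg (a : Fin 32) : 3 ≤ (sg a).length := by
  unfold sg
  rw [List.length_map]
  rcases div_cases a with h0 | h0 | h0 | h0 <;> rw [h0] <;> decide

lemma sqrt2_lt : √2 < 1.415 := by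
  rw [Real.sqrt_lt' (by norm_num)]; norm_num

lemma lt_sqrt2 : 1.414 < √2 := by
  rw [Real.lt_sqrt (by norm_num)]; norm_num

lemma abs_rhoD_le (a : Fin 32) : |rhoD a| ≤ 1 := by
  unfold rhoD
  have h1 := sqrt2_lt
  have h2 := lt_sqrt2
  split_ifs
  · simp
  · rw [abs_le]; constructor <;> linarith

lemma abs_rhoC_le (a : Fin 32) : |rhoC a| ≤ 1 := by
  unfold rhoC
  split_ifs <;> simp

lemma abs_rhoA_le (a : Fin 32) : |rhoA a| ≤ 1 := by
  unfold rhoA
  split_ifs <;> simp

lemma infix_singleton_length {w : List (Fin 32)} {a : Fin 32} (h : w <:+: [a]) : w.length ≤ 1 := by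
  have := h.length_le
  simpa using this

lemma discD (k : ℕ) (a : Fin 32) (w : List (Fin 32)) (h : w <:+: W sg k a) :
    |phi rhoD w| ≤ 20 := by
  induction k generalizing w with
  | zero =>
    have h1 := abs_phi_le abs_rhoD_le w
    have h2 : (w.length : ℝ) ≤ 1 := by exact_mod_cast infix_singleton_length h
    linarith
  | succ k ih =>
    rw [W_succ'] at h
    obtain ⟨s, v, q, hv, rfl, hs, hq⟩ := desub sg length_sg_le _ _ h
    have h1 := abs_phi_le abs_rhoD_le s
    have h2 := abs_phi_le abs_rhoD_le q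
    have h3 : (s.length : ℝ) ≤ 4 := by exact_mod_cast hs
    have h4 : (q.length : ℝ) ≤ 4 := by exact_mod_cast hq
    have h5 := ih v hv
    have h6 : phi rhoD (v.flatMap sg) = (2 - √2) * phi rhoD v := by
      rw [phi_flatMap, ← phi_smul]
      congr 1
      ext b
      exact phiD_sg b
    rw [phi_append, phi_append, h6]
    have h7 := sqrt2_lt
    have h8 := lt_sqrt2
    have h9 : |(2 - √2) * phi rhoD v| ≤ 0.586 * 20 := by
      rw [abs_mul, abs_of_pos (by linarith)]
      exact mul_le_mul (by linarith) h5 (abs_nonneg _) (by norm_num)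
    have h10 := abs_add_le (phi rhoD s + (2 - √2) * phi rhoD v) (phi rhoD q)
    have h11 := abs_add_le (phi rhoD s) ((2 - √2) * phi rhoD v)
    linarith

lemma discC (k : ℕ) (a : Fin 32) (w : List (Fin 32)) (h : w <:+: W sg k a) :
    |phi rhoC w| ≤ 8 := by
  cases k with
  | zero =>
    have h1 := abs_phi_le abs_rhoC_le w
    have h2 : (w.length : ℝ) ≤ 1 := by exact_mod_cast infix_singleton_length h
    linarith
  | succ k =>
    rw [W_succ'] at h
    obtain ⟨s, v, q, hv, rfl, hs, hq⟩ := desub sg length_sg_le _ _ h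
    have h1 := abs_phi_le abs_rhoC_le s
    have h2 := abs_phi_le abs_rhoC_le q
    have h3 : (s.length : ℝ) ≤ 4 := by exact_mod_cast hs
    have h4 : (q.length : ℝ) ≤ 4 := by exact_mod_cast hq
    have h6 : phi rhoC (v.flatMap sg) = 0 := by
      rw [phi_flatMap]
      have : (fun b => phi rhoC (sg b)) = fun b => 0 * rhoC b := by
        ext b; rw [phiC_sg, zero_mul]
      rw [this, phi_smul, zero_mul]
    rw [phi_append, phi_append, h6, add_zero]
    have h10 := abs_add_le (phi rhoC s) (phi rhoC q)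
    linarith

lemma discA (k : ℕ) (a : Fin 32) (w : List (Fin 32)) (h : w <:+: W sg k a) :
    |phi rhoA w| ≤ 16 := by
  cases k with
  | zero =>
    have h1 := abs_phi_le abs_rhoA_le w
    have h2 : (w.length : ℝ) ≤ 1 := by exact_mod_cast infix_singleton_length h
    linarith
  | succ k =>
    rw [W_succ'] at h
    obtain ⟨s, v, q, hv, rfl, hs, hq⟩ := desub sg length_sg_le _ _ h
    have h1 := abs_phi_le abs_rhoA_le s
    have h2 := abs_phi_le abs_rhoA_le q
    have h3 : (s.length : ℝ) ≤ 4 := by exact_mod_cast hs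
    have h4 : (q.length : ℝ) ≤ 4 := by exact_mod_cast hq
    have h5 := discC k a v hv
    have h6 : phi rhoA (v.flatMap sg) = phi rhoC v := by
      rw [phi_flatMap]
      congr 1
      ext b
      exact phiA_sg b
    rw [phi_append, phi_append, h6]
    have h10 := abs_add_le (phi rhoA s + phi rhoC v) (phi rhoA q)
    have h11 := abs_add_le (phi rhoA s) (phi rhoC v)
    linarith

/-- The number of letters of type `t` in a word. -/
noncomputable def cnt (t : ℕ) (w : List (Fin 32)) : ℝ := phi (fun a => if a.val / 8 = t then 1 else 0) w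

lemma phi_cons (ρ : Fin 32 → ℝ) (a : Fin 32) (w : List (Fin 32)) :
    phi ρ (a :: w) = ρ a + phi ρ w := by simp [phi]

lemma rel (w : List (Fin 32)) :
    phi rhoD w = cnt 0 w + cnt 1 w - (√2 / 2) * (cnt 2 w + cnt 3 w) ∧
    phi rhoC w = cnt 2 w - cnt 3 w ∧ phi rhoA w = cnt 0 w - cnt 1 w := by
  induction w with
  | nil => simp [phi, cnt]
  | cons a w ih =>
    obtain ⟨h1, h2, h3⟩ := ih
    simp only [cnt] at *
    simp only [phi_cons]
    rw [h1, h2, h3]
    rcases div_cases a with h0 | h0 | h0 | h0 <;> simp only [rhoD, rhoC, rhoA, h0] <;> norm_num <;>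
      (try constructor) <;> ring

lemma cnt_bounds (k : ℕ) (a : Fin 32) (w : List (Fin 32)) (h : w <:+: W sg k a) :
    |cnt 0 w - (√2 / 2) * cnt 2 w| ≤ 30 ∧ |cnt 1 w - (√2 / 2) * cnt 2 w| ≤ 30 ∧
      |cnt 3 w - cnt 2 w| ≤ 30 := by
  obtain ⟨h1, h2, h3⟩ := rel w
  have hD := discD k a w h
  have hC := discC k a w h
  have hA := discA k a w h
  rw [h1] at hD
  rw [h2] at hC
  rw [h3] at hA
  have h7 := sqrt2_lt
  have h8 := lt_sqrt2
  have hE : |(√2 / 2) * (cnt 2 w - cnt 3 w)| ≤ 8 := by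
    rw [abs_mul, abs_of_pos (by linarith)]
    calc √2 / 2 * |cnt 2 w - cnt 3 w| ≤ 1 * 8 :=
          mul_le_mul (by linarith) hC (abs_nonneg _) (by norm_num)
      _ = 8 := by norm_num
  rw [abs_le] at hD hC hA hE
  refine ⟨?_, ?_, ?_⟩ <;> rw [abs_le] <;> constructor <;> nlinarith

end Pool.Agent.Lib.MP_db984e_an
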