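import Pool.Agent.Lib.MP_db984e_an.Bound

namespace Pool.Agent.Lib.MP_db984e_an

lemma length_le_W (n : ℕ) (a : Fin 32) : (W sg n a).length ≤ 4 ^ n := by
  induction n generalizing a with
  | zero => simp [W_zero]
  | succ n ih =>
    rw [W_succ, List.length_flatMap]
    have h1 : ∀ w : List (Fin 32), (w.map (fun b => (W sg n b).length)).sum ≤ w.length * 4 ^ n := by
      intro w
      induction w with
      | nil => simp
      | cons b w ihw =>
        rw [List.map_cons, List.sum_cons, List.length_cons]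
        have := ih b
        nlinarith
    refine (h1 _).trans ?_
    have := length_sg_le a
    rw [pow_succ]
    nlinarith [pow_pos (show 0 < 4 by norm_num) n]

lemma le_length_flatMap {f : Fin 32 → List (Fin 32)} {c : ℕ}
    (hf : ∀ b, c ≤ (f b).length) (w : List (Fin 32)) :
    w.length * c ≤ (w.flatMap f).length := by
  induction w with
  | nil => simp
  | cons b w ih =>
    rw [List.flatMap_cons, List.length_append, List.length_cons]
    have := hf b
    nlinarith

lemma W_length_ge (n : ℕ) (a : Fin 32) : 3 ^ n ≤ (W sg n a).length := by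
  induction n generalizing a with
  | zero => simp [W_zero]
  | succ n ih =>
    rw [W_succ]
    have h1 := le_length_flatMap ih (sg a)
    have h2 := three_le_length_sg a
    rw [pow_succ]
    nlinarith [pow_pos (show 0 < 3 by norm_num) n]

/-- The base letter with the same type. -/
lemma eq_rot (a : Fin 32) : a = rot (a.val % 8) ⟨8 * (a.val / 8), by omega⟩ := by
  apply Fin.ext
  simp only [rot]
  omega

lemma ac_W (k n : ℕ) (a : Fin 32) : ac k (W sg n a) =
    if a.val / 8 = 0 then ac k (W sg n 0) else if a.val / 8 = 1 then ac k (W sg n 8)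
      else if a.val / 8 = 2 then ac k (W sg n 16) else ac k (W sg n 24) := by
  conv_lhs => rw [eq_rot a, W_rot, ac_map_rot]
  rcases div_cases a with h0 | h0 | h0 | h0
  · rw [if_pos h0]
    congr 3
    all_goals (simp only [h0])
  · rw [if_neg (by omega), if_pos h0]
    congr 3
    all_goals (simp only [h0])
  · rw [if_neg (by omega), if_neg (by omega), if_pos h0]
    congr 3
    all_goals (simp only [h0])
  · rw [if_neg (by omega), if_neg (by omega), if_neg (by omega)]
    congr 3
    all_goals (simp only [h0])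

lemma cnt_cons (t : ℕ) (a : Fin 32) (w : List (Fin 32)) :
    cnt t (a :: w) = (if a.val / 8 = t then 1 else 0) + cnt t w := by
  unfold cnt
  rw [phi_cons]

lemma sum_ac (k n : ℕ) (v : List (Fin 32)) : (v.map (fun b => ac k (W sg n b))).sum =
    (cnt 0 v : ℂ) * ac k (W sg n 0) + (cnt 1 v : ℂ) * ac k (W sg n 8) +
      (cnt 2 v : ℂ) * ac k (W sg n 16) + (cnt 3 v : ℂ) * ac k (W sg n 24) := by
  induction v with
  | nil => simp [cnt, phi]
  | cons b v ih =>
    rw [List.map_cons, List.sum_cons, ih, ac_W]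
    simp only [cnt_cons]
    rcases div_cases b with h0 | h0 | h0 | h0
    · simp only [h0]; push_cast; norm_num; ring
    · simp only [h0]; push_cast; norm_num; ring
    · simp only [h0]; push_cast; norm_num; ring
    · simp only [h0]; push_cast; norm_num; ring

lemma norm_sum_ac_le {k : ℕ} (hk : 1 ≤ k) (n : ℕ) {K : ℕ} {a : Fin 32} {v : List (Fin 32)}
    (hv : v <:+: W sg K a) : ‖(v.map (fun b => ac k (W sg n b))).sum‖ ≤ 90 * 4 ^ n := by
  obtain ⟨h1, h2, h3⟩ := cnt_bounds K a v hv
  have hid := ac_identity n hk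
  have hrw : (v.map (fun b => ac k (W sg n b))).sum =
      ((cnt 0 v - (√2 / 2) * cnt 2 v : ℝ) : ℂ) * ac k (W sg n 0) +
      ((cnt 1 v - (√2 / 2) * cnt 2 v : ℝ) : ℂ) * ac k (W sg n 8) +
      ((cnt 3 v - cnt 2 v : ℝ) : ℂ) * ac k (W sg n 24) := by
    rw [sum_ac]
    push_cast at hid ⊢
    linear_combination (cnt 2 v : ℂ) * hid
  have hb : ∀ (x : ℝ) (b : Fin 32), |x| ≤ 30 → ‖(x : ℂ) * ac k (W sg n b)‖ ≤ 30 * 4 ^ n := by
    intro x b hx
    rw [norm_mul, Complex.norm_real, Real.norm_eq_abs]
    have h4 := norm_ac_le k (W sg n b)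
    have h5 : ((W sg n b).length : ℝ) ≤ 4 ^ n := by exact_mod_cast length_le_W n b
    exact mul_le_mul hx (h4.trans h5) (norm_nonneg _) (by norm_num)
  rw [hrw]
  refine (norm_add_le _ _).trans ?_
  have h6 := norm_add_le (((cnt 0 v - (√2 / 2) * cnt 2 v : ℝ) : ℂ) * ac k (W sg n 0))
    (((cnt 1 v - (√2 / 2) * cnt 2 v : ℝ) : ℂ) * ac k (W sg n 8))
  have h7 := hb _ 0 h1
  have h8 := hb _ 8 h2
  have h9 := hb _ 24 h3
  linarith

lemma ac_flatMap (k n : ℕ) (v : List (Fin 32)) :
    ‖ac k (v.flatMap (W sg n)) - (v.map (fun b => ac k (W sg n b))).sum‖ ≤ k * v.length := by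
  induction v with
  | nil => simp [ac]
  | cons b v ih =>
    rw [List.flatMap_cons, List.map_cons, List.sum_cons, List.length_cons]
    have h1 := ac_append k (W sg n b) (v.flatMap (W sg n))
    have h2 : ac k (W sg n b ++ v.flatMap (W sg n)) -
        (ac k (W sg n b) + (v.map (fun b => ac k (W sg n b))).sum) =
        (ac k (W sg n b ++ v.flatMap (W sg n)) - (ac k (W sg n b) + ac k (v.flatMap (W sg n)))) +
        (ac k (v.flatMap (W sg n)) - (v.map (fun b => ac k (W sg n b))).sum) := by ring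
    rw [h2]
    refine (norm_add_le _ _).trans ?_
    push_cast
    linarith

lemma mem_sg_aux : ∀ a : Fin 32, ∃ b, a ∈ sg b := by decide +kernel

lemma raise (n : ℕ) {K : ℕ} {a : Fin 32} {w : List (Fin 32)} (h : w <:+: W sg K a) :
    ∃ (K' : ℕ) (b : Fin 32), w <:+: W sg (K' + n) b := by
  induction n with
  | zero => exact ⟨K, a, h⟩
  | succ n ih =>
    obtain ⟨K', b, hb⟩ := ih
    obtain ⟨b', hb'⟩ := mem_sg_aux b
    refine ⟨K', b', hb.trans ?_⟩
    rw [← add_assoc, W_succ]
    obtain ⟨s, t, hst⟩ := List.append_of_mem hb'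
    rw [hst, List.flatMap_append, List.flatMap_cons]
    exact ⟨s.flatMap (W sg (K' + n)), t.flatMap (W sg (K' + n)), by simp⟩

/-- The uniform estimate for the autocorrelation of the words of the language. -/
lemma norm_ac_word {k : ℕ} (hk : 1 ≤ k) (n : ℕ) {K : ℕ} {a : Fin 32} {w : List (Fin 32)}
    (h : w <:+: W sg K a) :
    ‖ac k w‖ * 3 ^ n ≤ k * w.length + (92 * 4 ^ n + 2 * k) * 3 ^ n := by
  obtain ⟨K', b, hb⟩ := raise n h
  rw [add_comm, W_add] at hb
  obtain ⟨s, v, q, hv, rfl, hs, hq⟩ := desub (W sg n) (length_le_W n) _ _ hb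
  have h1 := ac_append k (s ++ v.flatMap (W sg n)) q
  have h2 := ac_append k s (v.flatMap (W sg n))
  have h3 := ac_flatMap k n v
  have h4 := norm_sum_ac_le hk n hv
  have h5 : ‖ac k s‖ ≤ 4 ^ n := (norm_ac_le k s).trans (by exact_mod_cast hs)
  have h6 : ‖ac k q‖ ≤ 4 ^ n := (norm_ac_le k q).trans (by exact_mod_cast hq)
  have h7 : ((v.length : ℕ) : ℝ) * 3 ^ n ≤ ((s ++ v.flatMap (W sg n) ++ q).length : ℕ) := by
    have := le_length_flatMap (W_length_ge n) v
    have h8 : v.length * 3 ^ n ≤ (s ++ v.flatMap (W sg n) ++ q).length := by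
      simp only [List.length_append] at *
      omega
    exact_mod_cast h8
  have h8 : ‖ac k (s ++ v.flatMap (W sg n) ++ q)‖ ≤ k * v.length + (92 * 4 ^ n + 2 * k) := by
    have e1 : ac k (s ++ v.flatMap (W sg n) ++ q) =
        (ac k (s ++ v.flatMap (W sg n) ++ q) - (ac k (s ++ v.flatMap (W sg n)) + ac k q)) +
        (ac k (s ++ v.flatMap (W sg n)) - (ac k s + ac k (v.flatMap (W sg n)))) +
        (ac k (v.flatMap (W sg n)) - (v.map (fun b => ac k (W sg n b))).sum) +
        (v.map (fun b => ac k (W sg n b))).sum + ac k s + ac k q := by ring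
    rw [e1]
    refine (norm_add_le _ _).trans ?_
    refine (add_le_add_left (norm_add_le _ _) _).trans ?_
    refine (add_le_add_left (add_le_add_left (norm_add_le _ _) _) _).trans ?_
    refine (add_le_add_left (add_le_add_left (add_le_add_left (norm_add_le _ _) _) _) _).trans ?_
    refine (add_le_add_left (add_le_add_left (add_le_add_left (add_le_add_left
      (norm_add_le _ _) _) _) _) _).trans ?_
    linarith
  have h9 : (0:ℝ) < 3 ^ n := by positivity
  calc ‖ac k (s ++ v.flatMap (W sg n) ++ q)‖ * 3 ^ n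
      ≤ (k * v.length + (92 * 4 ^ n + 2 * k)) * 3 ^ n := by gcongr
    _ = k * (v.length * 3 ^ n) + (92 * 4 ^ n + 2 * k) * 3 ^ n := by ring
    _ ≤ k * ((s ++ v.flatMap (W sg n) ++ q).length : ℕ) + (92 * 4 ^ n + 2 * k) * 3 ^ n := by
        gcongr

end Pool.Agent.Lib.MP_db984e_an
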