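import Mathlib

/-!
# Substitution subshifts, invariant measures and Lebesgue spectral components
-/

open MeasureTheory

namespace Pool.Agent.Lib.MP_db984e_an

variable {m : ℕ}

/-- The extension of a substitution to words, by concatenation. -/
def extend (σ : Fin m → List (Fin m)) (w : List (Fin m)) : List (Fin m) := w.flatMap σ

/-- The substitution matrix: the entry `(i, j)` is the number of occurrences of the letter `i`
in the word `σ j`. -/
def substMatrix (σ : Fin m → List (Fin m)) : Matrix (Fin m) (Fin m) ℕ :=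
  Matrix.of fun i j => (σ j).count i

/-- The substitution `σ` is primitive: some power of its matrix has only positive entries. -/
def IsPrimitive (σ : Fin m → List (Fin m)) : Prop :=
  ∃ k : ℕ, 0 < k ∧ ∀ i j, 0 < (substMatrix σ ^ k) i j

/-- The subshift `X_σ`: all bi-infinite sequences all of whose finite subwords occur in some
`σ ^ k (a)`. -/
def subshift (σ : Fin m → List (Fin m)) : Set (ℤ → Fin m) :=
  {x | ∀ (i : ℤ) (n : ℕ), ∃ (a : Fin m) (k : ℕ),
    ((List.range n).map fun j : ℕ => x (i + j)) <:+: (extend σ)^[k] [a]}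

/-- The `n`-th power `T ^ n` of the left shift `T`. -/
def shift (n : ℤ) (x : ℤ → Fin m) : ℤ → Fin m := fun i => x (i + n)

/-- `μ` is a `T`-invariant Borel probability measure on `X_σ`. -/
def IsInvariantOn (σ : Fin m → List (Fin m)) (μ : Measure (ℤ → Fin m)) : Prop :=
  IsProbabilityMeasure μ ∧ μ (subshift σ)ᶜ = 0 ∧ μ.map (shift 1) = μ

/-- `θ` is a Perron-Frobenius eigenvalue of the substitution matrix: an eigenvalue with a strictly
positive eigenvector. -/
def IsPerronFrobenius (σ : Fin m → List (Fin m)) (θ : ℝ) : Prop :=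
  ∃ v : Fin m → ℝ, (∀ i, 0 < v i) ∧
    ((substMatrix σ).map (Nat.cast : ℕ → ℝ)).mulVec v = θ • v

/-- The system `(ℤ → Fin m, T, μ)` has a Lebesgue spectral component: there is a nonzero `f` in
`L²(μ)` whose spectral measure `ν` (the finite measure on the circle with Fourier coefficients
`⟨U_T ^ n f, f⟩`) is absolutely continuous with respect to Lebesgue measure. -/
def HasLebesgueComponent (μ : Measure (ℤ → Fin m)) : Prop :=
  ∃ f : (ℤ → Fin m) → ℂ, MemLp f 2 μ ∧ ¬ f =ᵐ[μ] 0 ∧
    ∃ ν : Measure UnitAddCircle, IsFiniteMeasure ν ∧ ν ≪ volume ∧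
      ∀ n : ℤ, ∫ t, fourier n t ∂ν = ∫ x, f (shift n x) * (starRingEnd ℂ) (f x) ∂μ

end Pool.Agent.Lib.MP_db984e_an
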