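import Pool.Agent.Lib.MP_db984e_an.Meas

open MeasureTheory Filter Topology
open scoped BoundedContinuousFunction

namespace Pool.Agent.Lib.MP_db984e_an

/-- Krylov–Bogoliubov: a continuous self-map of a nonempty compact metrizable space has an
invariant probability measure. -/
theorem krylov {E : Type*} [TopologicalSpace E] [CompactSpace E] [T2Space E] [MeasurableSpace E]
    [BorelSpace E] [HasOuterApproxClosed E] {T : E → E} (hT : Continuous T) (x0 : E) :
    ∃ μ : Measure E, IsProbabilityMeasure μ ∧ μ.map T = μ := by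
  classical
  -- empirical measures
  have hprob : ∀ N : ℕ, IsProbabilityMeasure
      ((((N : ENNReal) + 1)⁻¹) • ∑ i ∈ Finset.range (N + 1), Measure.dirac (T^[i] x0)) := by
    intro N
    constructor
    rw [Measure.smul_apply, Measure.finsetSum_apply]
    simp only [measure_univ, Finset.sum_const, Finset.card_range, nsmul_eq_mul, mul_one, smul_eq_mul]
    push_cast
    exact ENNReal.inv_mul_cancel (by simp) (by simp)
  set ν : ℕ → ProbabilityMeasure E := fun N => ⟨_, hprob N⟩ with hν
  obtain ⟨μ, -, hμ⟩ := (isCompact_univ (X := ProbabilityMeasure E)).ultrafilter_le_nhds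
    (Ultrafilter.map ν (hyperfilter ℕ)) (by simp)
  have hlim : Tendsto ν (hyperfilter ℕ : Filter ℕ) (𝓝 μ) := hμ
  refine ⟨μ, inferInstance, ?_⟩
  have hint : ∀ (N : ℕ) (f : E →ᵇ ℝ), ∫ x, f x ∂(ν N : Measure E) =
      ((N : ℝ) + 1)⁻¹ * ∑ i ∈ Finset.range (N + 1), f (T^[i] x0) := by
    intro N f
    have e1 : (ν N : Measure E) =
      ((((N : ENNReal) + 1)⁻¹) • ∑ i ∈ Finset.range (N + 1), Measure.dirac (T^[i] x0)) := rfl
    rw [e1, integral_smul_measure, integral_finsetSum_measure]
    · simp only [integral_dirac, smul_eq_mul]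
      congr 1
      rw [ENNReal.toReal_inv]
      congr 1
    · intro i _
      exact f.integrable _
  apply ext_of_forall_integral_eq_of_IsFiniteMeasure
  intro f
  rw [integral_map hT.measurable.aemeasurable f.continuous.measurable.aestronglyMeasurable]
  set fT : E →ᵇ ℝ := f.compContinuous ⟨T, hT⟩ with hfT
  have h1 : Tendsto (fun N => ∫ x, f x ∂(ν N : Measure E)) (hyperfilter ℕ : Filter ℕ)
      (𝓝 (∫ x, f x ∂(μ : Measure E))) :=
    (ProbabilityMeasure.tendsto_iff_forall_integral_tendsto.mp hlim) f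
  have h2 : Tendsto (fun N => ∫ x, fT x ∂(ν N : Measure E)) (hyperfilter ℕ : Filter ℕ)
      (𝓝 (∫ x, fT x ∂(μ : Measure E))) :=
    (ProbabilityMeasure.tendsto_iff_forall_integral_tendsto.mp hlim) fT
  have h3 : Tendsto (fun N => ∫ x, fT x ∂(ν N : Measure E) - ∫ x, f x ∂(ν N : Measure E))
      (hyperfilter ℕ : Filter ℕ) (𝓝 0) := by
    have h4 : Tendsto (fun N : ℕ => (2 * ‖f‖) * ((N : ℝ) + 1)⁻¹) atTop (𝓝 0) := by
      have := (tendsto_one_div_add_atTop_nhds_zero_nat (𝕜 := ℝ)).const_mul (2 * ‖f‖)
      simpa [one_div] using this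
    have h5 := h4.mono_left (Nat.hyperfilter_le_atTop)
    apply squeeze_zero_norm _ h5
    intro N
    rw [hint, hint, ← mul_sub, norm_mul, mul_comm]
    have e1 : ∑ i ∈ Finset.range (N + 1), fT (T^[i] x0) - ∑ i ∈ Finset.range (N + 1), f (T^[i] x0) =
        f (T^[N + 1] x0) - f x0 := by
      have : ∀ i, fT (T^[i] x0) = f (T^[i + 1] x0) := by
        intro i
        rw [Function.iterate_succ_apply']
        rfl
      simp_rw [this]
      rw [← Finset.sum_sub_distrib, Finset.sum_range_sub (fun i => f (T^[i] x0))]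
      rfl
    rw [e1]
    have e2 : ‖((N : ℝ) + 1)⁻¹‖ = ((N : ℝ) + 1)⁻¹ := by
      rw [Real.norm_of_nonneg (by positivity)]
    rw [e2]
    apply mul_le_mul_of_nonneg_right _ (by positivity)
    have := norm_sub_le (f (T^[N + 1] x0)) (f x0)
    have h6 := f.norm_coe_le_norm (T^[N + 1] x0)
    have h7 := f.norm_coe_le_norm x0
    linarith
  have h4 := tendsto_nhds_unique (h2.sub h1) h3
  have h5 : ∫ x, fT x ∂(μ : Measure E) = ∫ x, f x ∂(μ : Measure E) := by linarith
  exact h5

/-- Being a word of the language. -/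
def IsWord (w : List (Fin 32)) : Prop := ∃ (a : Fin 32) (k : ℕ), w <:+: (extend sg)^[k] [a]

lemma IsWord.ofSub {u w : List (Fin 32)} (h : IsWord w) (hu : u <:+: w) : IsWord u := by
  obtain ⟨a, k, hk⟩ := h
  exact ⟨a, k, hu.trans hk⟩

lemma mem_subshift_iff {x : ℤ → Fin 32} :
    x ∈ subshift sg ↔ ∀ (i : ℤ) (n : ℕ), IsWord (win x i n) := Iff.rfl

lemma win_add (x : ℤ → Fin 32) (i : ℤ) (a b : ℕ) :
    win x i (a + b) = win x i a ++ win x (i + a) b := by
  unfold win
  rw [List.range_add, List.map_append, List.map_map]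
  congr 1
  apply List.map_congr_left
  intro j _
  simp only [Function.comp]
  congr 1
  push_cast
  ring

lemma isClosed_win (i : ℤ) (n : ℕ) : IsClosed {x : ℤ → Fin 32 | IsWord (win x i n)} := by
  have h1 : {x : ℤ → Fin 32 | IsWord (win x i n)} =
      (fun x : ℤ → Fin 32 => fun j : Fin n => x (i + (j : ℕ))) ⁻¹'
        {y | IsWord (List.ofFn y)} := by
    ext x
    simp only [Set.mem_ofPred_eq, Set.mem_preimage]
    have : win x i n = List.ofFn fun j : Fin n => x (i + (j : ℕ)) := by
      unfold win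
      apply List.ext_getElem
      · simp
      · intro k h1 h2
        simp
    rw [this]
  rw [h1]
  apply IsClosed.preimage
  · fun_prop
  · exact isClosed_discrete _

lemma isClosed_subshift : IsClosed (subshift sg) := by
  have : subshift sg = ⋂ i : ℤ, ⋂ n : ℕ, {x : ℤ → Fin 32 | IsWord (win x i n)} := by
    ext x
    simp only [Set.mem_iInter]
    exact mem_subshift_iff
  rw [this]
  exact isClosed_iInter fun i => isClosed_iInter fun n => isClosed_win i n

lemma nonempty_subshift : (subshift sg).Nonempty := by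
  set K : ℕ → Set (ℤ → Fin 32) := fun N => {x | IsWord (win x (-(N : ℤ)) (2 * N + 1))} with hK
  have hne : (⋂ N, K N).Nonempty := by
    apply IsCompact.nonempty_iInter_of_sequence_nonempty_isCompact_isClosed
    · intro N x hx
      have h1 : win x (-((N + 1 : ℕ) : ℤ)) (2 * (N + 1) + 1) =
          win x (-((N + 1 : ℕ) : ℤ)) 1 ++ (win x (-(N : ℤ)) (2 * N + 1) ++ win x (N + 1) 1) := by
        have e1 : 2 * (N + 1) + 1 = 1 + ((2 * N + 1) + 1) := by ring
        rw [e1, win_add, win_add]
        congr 2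
        · congr 1
          push_cast
          ring
        · congr 1
          push_cast
          ring
      have hx' : IsWord (win x (-((N + 1 : ℕ) : ℤ)) (2 * (N + 1) + 1)) := hx
      apply hx'.ofSub
      rw [h1]
      exact ⟨win x (-((N + 1 : ℕ) : ℤ)) 1, win x (N + 1) 1, by simp⟩
    · intro N
      obtain ⟨n, hn⟩ := pow_unbounded_of_one_lt (2 * N + 1) (show 1 < 3 by norm_num)
      have hlen := W_length_ge n 0
      set u := (W sg n 0).take (2 * N + 1) with hu
      have hulen : u.length = 2 * N + 1 := by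
        rw [hu, List.length_take]
        omega
      refine ⟨fun i => (u[(i + N).toNat]?).getD 0, ?_⟩
      have h1 : win (fun i : ℤ => (u[(i + N).toNat]?).getD 0) (-(N : ℤ)) (2 * N + 1) = u := by
        unfold win
        apply List.ext_getElem
        · simp [hulen]
        · intro k h1 h2
          have e1 : (-(N : ℤ) + k + N).toNat = k := by omega
          simp only [List.getElem_map, List.getElem_range]
          rw [e1, List.getElem?_eq_getElem h2]
          rfl
      show IsWord _
      rw [h1]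
      exact ⟨0, n, (List.take_prefix _ _).isInfix⟩
    · exact (isClosed_win _ _).isCompact
    · intro N
      exact isClosed_win _ _
  obtain ⟨x, hx⟩ := hne
  refine ⟨x, mem_subshift_iff.mpr fun i n => ?_⟩
  rw [Set.mem_iInter] at hx
  have h1 : IsWord (win x (-((i.natAbs + n : ℕ) : ℤ)) (2 * (i.natAbs + n) + 1)) := hx (i.natAbs + n)
  apply h1.ofSub
  obtain ⟨a, ha⟩ : ∃ a : ℕ, (a : ℤ) = i + (i.natAbs + n : ℕ) :=
    ⟨(i + (i.natAbs + n : ℕ)).toNat, by omega⟩
  obtain ⟨b, hb⟩ : ∃ b : ℕ, 2 * (i.natAbs + n) + 1 = a + (n + b) :=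
    ⟨2 * (i.natAbs + n) + 1 - (a + n), by omega⟩
  rw [hb, win_add, win_add]
  have e1 : -((i.natAbs + n : ℕ) : ℤ) + a = i := by rw [ha]; ring
  rw [e1]
  exact ⟨win x (-((i.natAbs + n : ℕ) : ℤ)) a, win x (i + n) b, by simp⟩

lemma continuous_shift (n : ℤ) : Continuous (shift n : (ℤ → Fin 32) → (ℤ → Fin 32)) :=
  continuous_pi fun _ => continuous_apply _

theorem exists_invariant : ∃ μ : Measure (ℤ → Fin 32), IsInvariantOn sg μ := by
  obtain ⟨x0, hx0⟩ := nonempty_subshift
  have hcomp : CompactSpace (subshift sg) := isCompact_iff_compactSpace.mp isClosed_subshift.isCompact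
  have hmaps : ∀ x ∈ subshift sg, shift 1 x ∈ subshift sg := by
    intro x hx i n
    obtain ⟨a, k, h⟩ := hx (i + 1) n
    refine ⟨a, k, ?_⟩
    convert h using 1
    apply List.map_congr_left
    intro j _
    simp only [shift]
    congr 1
    ring
  set T : subshift sg → subshift sg := fun x => ⟨shift 1 x.1, hmaps x.1 x.2⟩ with hT
  have hTc : Continuous T :=
    Continuous.subtype_mk ((continuous_shift 1).comp continuous_subtype_val) _
  obtain ⟨μ, hμ1, hμ2⟩ := krylov hTc ⟨x0, hx0⟩
  refine ⟨μ.map Subtype.val, ?_, ?_, ?_⟩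
  · exact Measure.isProbabilityMeasure_map measurable_subtype_coe.aemeasurable
  · rw [Measure.map_apply measurable_subtype_coe isClosed_subshift.measurableSet.compl]
    have : (Subtype.val ⁻¹' (subshift sg)ᶜ : Set (subshift sg)) = ∅ := by
      ext x
      simp
    rw [this, measure_empty]
  · rw [Measure.map_map (measurable_shift 1) measurable_subtype_coe]
    have : (shift 1 ∘ Subtype.val : subshift sg → (ℤ → Fin 32)) = Subtype.val ∘ T := rfl
    rw [this, ← Measure.map_map measurable_subtype_coe hTc.measurable, hμ2]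

end Pool.Agent.Lib.MP_db984e_an
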