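import Pool.Agent.Lib.MP_db984e_an.Words

open Complex

namespace Pool.Agent.Lib.MP_db984e_an

/-- The images of the letters of phase zero. The letter `8 * t + p` has type `t` and phase `p`. -/
def tau : ℕ → List (Fin 32)
  | 0 => [0, 19, 29, 14]
  | 1 => [0, 21, 27, 10]
  | 2 => [0, 16, 24]
  | _ => [16, 28, 8]

/-- Rotation of the phase by `p`. -/
def rot (p : ℕ) (a : Fin 32) : Fin 32 := ⟨8 * (a.val / 8) + (a.val % 8 + p) % 8, by omega⟩

/-- The substitution. -/
def sg (a : Fin 32) : List (Fin 32) := (tau (a.val / 8)).map (rot (a.val % 8))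

lemma rot_mod (p : ℕ) (a : Fin 32) : rot p a = rot (p % 8) a := by
  simp [rot]

lemma sg_rot_aux : ∀ (p : Fin 8) (a : Fin 32), sg (rot p a) = (sg a).map (rot p) := by
  decide +kernel

lemma sg_rot (p : ℕ) (a : Fin 32) : sg (rot p a) = (sg a).map (rot p) := by
  have h := sg_rot_aux ⟨p % 8, Nat.mod_lt _ (by norm_num)⟩ a
  simp only at h
  rw [rot_mod, h]
  apply List.map_congr_left
  intro b _
  rw [rot_mod p]

lemma W_rot (n p : ℕ) (a : Fin 32) : W sg n (rot p a) = (W sg n a).map (rot p) := by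
  induction n generalizing a with
  | zero => rfl
  | succ n ih =>
    rw [W_succ, W_succ, sg_rot, List.flatMap_map, List.map_flatMap]
    congr 1
    ext1 b
    exact ih b

lemma length_W_rot (n p : ℕ) (a : Fin 32) : (W sg n (rot p a)).length = (W sg n a).length := by
  rw [W_rot, List.length_map]

lemma sg_0 : sg 0 = [0, rot 3 16, rot 5 24, rot 6 8] := by decide
lemma sg_8 : sg 8 = [0, rot 5 16, rot 3 24, rot 2 8] := by decide
lemma sg_16 : sg 16 = [0, 16, 24] := by decide
lemma sg_24 : sg 24 = [16, rot 4 24, 8] := by decide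

lemma W0 (n : ℕ) : W sg (n + 1) 0 = W sg n 0 ++ ((W sg n 16).map (rot 3) ++
    ((W sg n 24).map (rot 5) ++ (W sg n 8).map (rot 6))) := by
  rw [W_succ, sg_0]
  simp [W_rot]

lemma W8 (n : ℕ) : W sg (n + 1) 8 = W sg n 0 ++ ((W sg n 16).map (rot 5) ++
    ((W sg n 24).map (rot 3) ++ (W sg n 8).map (rot 2))) := by
  rw [W_succ, sg_8]
  simp [W_rot]

lemma W16 (n : ℕ) : W sg (n + 1) 16 = W sg n 0 ++ (W sg n 16 ++ W sg n 24) := by
  rw [W_succ, sg_16]
  simp

lemma W24 (n : ℕ) : W sg (n + 1) 24 = W sg n 16 ++ ((W sg n 24).map (rot 4) ++ W sg n 8) := by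
  rw [W_succ, sg_24]
  simp [W_rot]

lemma length_W (n : ℕ) : (W sg n 8).length = (W sg n 0).length ∧
    (W sg n 24).length = (W sg n 16).length := by
  induction n with
  | zero => exact ⟨rfl, rfl⟩
  | succ n ih =>
    obtain ⟨h1, h2⟩ := ih
    rw [W0, W8, W16, W24]
    simp only [List.length_append, List.length_map]
    constructor
    · trivial
    · rw [h1, h2]; ring

/-- The primitive eighth root of unity. -/
noncomputable def zeta : ℂ := ⟨√2 / 2, √2 / 2⟩

lemma zeta_sq : zeta ^ 2 = I := by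
  have h : √2 * √2 = 2 := Real.mul_self_sqrt (by norm_num)
  apply Complex.ext
  · simp only [zeta, sq, mul_re, I_re]; ring
  · simp only [zeta, sq, mul_im, I_im]; linear_combination (1 / 2) * h

lemma zeta_pow_eight : zeta ^ 8 = 1 := by
  have : zeta ^ 8 = (zeta ^ 2) ^ 4 := by ring
  rw [this, zeta_sq, I_pow_four]

lemma normSq_zeta : normSq zeta = 1 := by
  have h : √2 * √2 = 2 := Real.mul_self_sqrt (by norm_num)
  rw [normSq_apply]
  simp only [zeta]
  linear_combination (1 / 2) * h

/-- The function of a letter: the phase of the letters of type `2`. -/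
noncomputable def g (a : Fin 32) : ℂ := if a.val / 8 = 2 then zeta ^ (a.val % 8) else 0

lemma zeta_pow_mod (k : ℕ) : zeta ^ (k % 8) = zeta ^ k := by
  conv_rhs => rw [← Nat.div_add_mod k 8, pow_add, pow_mul, zeta_pow_eight, one_pow, one_mul]

lemma g_rot (p : ℕ) (a : Fin 32) : g (rot p a) = zeta ^ p * g a := by
  unfold g
  have h1 : (rot p a).val / 8 = a.val / 8 := by
    simp only [rot]; omega
  have h2 : (rot p a).val % 8 = (a.val % 8 + p) % 8 := by
    simp only [rot]; omega
  rw [h1, h2]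
  split_ifs
  · rw [zeta_pow_mod, pow_add, mul_comm]
  · simp

lemma norm_zeta : ‖zeta‖ = 1 := by
  have h := normSq_zeta
  rw [normSq_eq_norm_sq] at h
  nlinarith [norm_nonneg zeta]

lemma norm_g_le (a : Fin 32) : ‖g a‖ ≤ 1 := by
  unfold g
  split_ifs
  · rw [norm_pow, norm_zeta, one_pow]
  · simp

/-- The generating function of a word. -/
noncomputable def F (z : ℂ) : List (Fin 32) → ℂ
  | [] => 0
  | a :: w => g a + z * F z w

lemma F_append (z : ℂ) (u v : List (Fin 32)) : F z (u ++ v) = F z u + z ^ u.length * F z v := by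
  induction u with
  | nil => simp [F]
  | cons a u ih =>
    simp only [List.cons_append, F, ih, List.length_cons, pow_succ]
    ring

lemma F_rot (z : ℂ) (p : ℕ) (u : List (Fin 32)) : F z (u.map (rot p)) = zeta ^ p * F z u := by
  induction u with
  | nil => simp [F]
  | cons a u ih =>
    simp only [List.map_cons, F, ih, g_rot]
    ring

/-- The weighted energy of the four generating functions. -/
noncomputable def energy (z : ℂ) (n : ℕ) : ℝ :=
  (√2 / 2) * normSq (F z (W sg n 0)) + (√2 / 2) * normSq (F z (W sg n 8)) +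
    normSq (F z (W sg n 16)) + normSq (F z (W sg n 24))

lemma identity (A B C D : ℂ) :
    (√2 / 2) * normSq (A + (zeta ^ 3 * C + (zeta ^ 5 * D + zeta ^ 6 * B))) +
    (√2 / 2) * normSq (A + (zeta ^ 5 * C + (zeta ^ 3 * D + zeta ^ 2 * B))) +
    normSq (A + (C + D)) + normSq (C + (zeta ^ 4 * D + B)) =
    (2 + √2) * ((√2 / 2) * normSq A + (√2 / 2) * normSq B + normSq C + normSq D) := by
  have h : √2 * √2 = 2 := Real.mul_self_sqrt (by norm_num)
  have z3 : zeta ^ 3 = ⟨-(√2 / 2), √2 / 2⟩ := by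
    have : zeta ^ 3 = zeta ^ 2 * zeta := by ring
    rw [this, zeta_sq]
    apply Complex.ext <;> simp [zeta]
  have z4 : zeta ^ 4 = -1 := by
    have : zeta ^ 4 = (zeta ^ 2) ^ 2 := by ring
    rw [this, zeta_sq, I_sq]
  have z5 : zeta ^ 5 = ⟨-(√2 / 2), -(√2 / 2)⟩ := by
    have : zeta ^ 5 = zeta ^ 4 * zeta := by ring
    rw [this, z4]
    apply Complex.ext <;> simp [zeta]
  have z6 : zeta ^ 6 = -I := by
    have : zeta ^ 6 = zeta ^ 4 * zeta ^ 2 := by ring
    rw [this, z4, zeta_sq]; ring
  rw [z3, z4, z5, z6, zeta_sq]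
  obtain ⟨a1, a2⟩ := A
  obtain ⟨b1, b2⟩ := B
  obtain ⟨c1, c2⟩ := C
  obtain ⟨d1, d2⟩ := D
  generalize √2 = r at *
  simp only [normSq_apply, add_re, add_im, mul_re, mul_im, neg_re, neg_im, I_re, I_im, one_re,
    one_im]
  have h3 : r ^ 3 = 2 * r := by
    linear_combination r * h
  have h2 : r ^ 2 = 2 := by linear_combination h
  ring_nf
  rw [h3, h2]
  ring

lemma energy_succ {z : ℂ} (hz : normSq z = 1) (n : ℕ) :
    energy z (n + 1) = (2 + √2) * energy z n := by
  obtain ⟨h1, h2⟩ := length_W n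
  set x := z ^ (W sg n 0).length with hx
  set y := z ^ (W sg n 16).length with hy
  have hx1 : normSq x = 1 := by rw [hx, map_pow, hz, one_pow]
  have hy1 : normSq y = 1 := by rw [hy, map_pow, hz, one_pow]
  have hid := identity (F z (W sg n 0)) (x * y ^ 2 * F z (W sg n 8)) (x * F z (W sg n 16))
    (x * y * F z (W sg n 24))
  have e0 : F z (W sg (n + 1) 0) = F z (W sg n 0) + (zeta ^ 3 * (x * F z (W sg n 16)) +
      (zeta ^ 5 * (x * y * F z (W sg n 24)) + zeta ^ 6 * (x * y ^ 2 * F z (W sg n 8)))) := by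
    rw [W0, F_append, F_append, F_append]
    simp only [F_rot, List.length_map, h2]
    rw [← hx, ← hy]
    ring
  have e8 : F z (W sg (n + 1) 8) = F z (W sg n 0) + (zeta ^ 5 * (x * F z (W sg n 16)) +
      (zeta ^ 3 * (x * y * F z (W sg n 24)) + zeta ^ 2 * (x * y ^ 2 * F z (W sg n 8)))) := by
    rw [W8, F_append, F_append, F_append]
    simp only [F_rot, List.length_map, h2]
    rw [← hx, ← hy]
    ring
  have e16 : F z (W sg (n + 1) 16) = F z (W sg n 0) + (x * F z (W sg n 16) +
      x * y * F z (W sg n 24)) := by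
    rw [W16, F_append, F_append]
    rw [← hx, ← hy]
    ring
  have e24 : x * F z (W sg (n + 1) 24) = x * F z (W sg n 16) +
      (zeta ^ 4 * (x * y * F z (W sg n 24)) + x * y ^ 2 * F z (W sg n 8)) := by
    rw [W24, F_append, F_append]
    simp only [F_rot, List.length_map, h2]
    rw [← hy]
    ring
  have e24' : normSq (F z (W sg (n + 1) 24)) = normSq (x * F z (W sg n 16) +
      (zeta ^ 4 * (x * y * F z (W sg n 24)) + x * y ^ 2 * F z (W sg n 8))) := by
    rw [← e24, map_mul, hx1, one_mul]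
  unfold energy
  rw [e0, e8, e16, e24']
  rw [hid]
  simp only [map_mul, map_pow, hx1, hy1]
  ring

lemma energy_zero (z : ℂ) : energy z 0 = 1 := by
  have g0 : g 0 = 0 := by unfold g; rw [if_neg (by decide)]
  have g8 : g 8 = 0 := by unfold g; rw [if_neg (by decide)]
  have g16 : g 16 = 1 := by
    unfold g
    rw [if_pos (by decide)]
    have : (16 : Fin 32).val % 8 = 0 := by decide
    rw [this, pow_zero]
  have g24 : g 24 = 0 := by unfold g; rw [if_neg (by decide)]
  unfold energy
  simp only [W_zero, F, mul_zero, add_zero, g0, g8, g16, g24, map_zero, map_one, zero_add]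

lemma energy_eq {z : ℂ} (hz : normSq z = 1) (n : ℕ) : energy z n = (2 + √2) ^ n := by
  induction n with
  | zero => rw [energy_zero, pow_zero]
  | succ n ih => rw [energy_succ hz, ih, pow_succ]; ring

end Pool.Agent.Lib.MP_db984e_an
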