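import Pool.Agent.Lib.MP_db984e_an.Meas

open MeasureTheory

namespace Pool.Agent.Lib.MP_db984e_an

/-- The squared modulus of the function. -/
noncomputable def gg (a : Fin 32) : ℝ := if a.val / 8 = 2 then 1 else 0

lemma g_mul_conj (a : Fin 32) : g a * (starRingEnd ℂ) (g a) = (gg a : ℂ) := by
  unfold g gg
  split_ifs with h
  · rw [Complex.mul_conj, map_pow, normSq_zeta, one_pow]
  · simp

lemma mem_type_two : ∀ a : Fin 32, ∃ b ∈ sg a, b.val / 8 = 2 := by decide +kernel

lemma sum_gg {x : ℤ → Fin 32} (hx : x ∈ subshift sg) :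
    1 ≤ ∑ i ∈ Finset.range 9, gg (x i) := by
  obtain ⟨a, K, h⟩ := hx 0 9
  obtain ⟨K', b, hb⟩ := raise 1 h
  rw [W_succ'] at hb
  obtain ⟨s, v, q, hv, hw, hs, hq⟩ := desub sg length_sg_le _ _ hb
  have hlen : ((List.range 9).map fun j : ℕ => x (0 + (j : ℤ))).length = 9 := by simp
  have hvne : v ≠ [] := by
    rintro rfl
    rw [hw] at hlen
    simp only [List.flatMap_nil, List.length_append, List.length_nil] at hlen
    omega
  obtain ⟨c, v', rfl⟩ := List.exists_cons_of_ne_nil hvne
  obtain ⟨d, hd1, hd2⟩ := mem_type_two c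
  have hmem : d ∈ (List.range 9).map fun j : ℕ => x (0 + (j : ℤ)) := by
    rw [hw, List.flatMap_cons]
    simp [hd1]
  rw [List.mem_map] at hmem
  obtain ⟨j, hj1, hj2⟩ := hmem
  rw [List.mem_range] at hj1
  rw [zero_add] at hj2
  have h1 : gg (x j) = 1 := by
    rw [hj2]; unfold gg; rw [if_pos hd2]
  rw [← h1]
  apply Finset.single_le_sum (f := fun i : ℕ => gg (x i))
  · intro i _
    unfold gg
    split_ifs <;> norm_num
  · exact Finset.mem_range.mpr hj1

lemma integrable_gg (μ : Measure (ℤ → Fin 32)) [IsFiniteMeasure μ] (n : ℤ) :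
    Integrable (fun x : ℤ → Fin 32 => gg (x n)) μ := by
  apply Integrable.of_bound ((measurable_of_finite gg).comp
    (measurable_pi_apply n)).aestronglyMeasurable 1
  apply Filter.Eventually.of_forall
  intro x
  simp only [Function.comp, gg]
  split_ifs <;> simp

lemma mass_pos {μ : Measure (ℤ → Fin 32)} (hμ : IsInvariantOn sg μ) :
    0 < ∫ x, gg (x 0) ∂μ := by
  obtain ⟨h1, h2, h3⟩ := hμ
  have hinv : ∀ i : ℕ, ∫ x, gg (x i) ∂μ = ∫ x, gg (x 0) ∂μ := by
    intro i
    have hm : Measurable (fun x : ℤ → Fin 32 => gg (x 0)) :=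
      (measurable_of_finite gg).comp (measurable_pi_apply 0)
    conv_rhs => rw [← map_shift h3 i]
    rw [integral_map (measurable_shift _).aemeasurable hm.aestronglyMeasurable]
    simp only [shift, zero_add]
  have e1 : 1 ≤ ∫ x, ∑ i ∈ Finset.range 9, gg (x i) ∂μ := by
    have hx : ∀ᵐ x ∂μ, x ∈ subshift sg := h2
    have e2 : ∫ _x : ℤ → Fin 32, (1:ℝ) ∂μ ≤ ∫ x, ∑ i ∈ Finset.range 9, gg (x i) ∂μ := by
      apply integral_mono_ae (integrable_const 1)
        (integrable_finsetSum (Finset.range 9) fun (i : ℕ) _ => integrable_gg μ (i : ℤ))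
      filter_upwards [hx] with x hx
      exact sum_gg hx
    simpa using e2
  rw [integral_finsetSum (Finset.range 9) fun (i : ℕ) _ => integrable_gg μ (i : ℤ),
    Finset.sum_congr rfl fun i _ => hinv i,
    Finset.sum_const, Finset.card_range, nsmul_eq_mul] at e1
  push_cast at e1
  linarith

lemma integral_self (μ : Measure (ℤ → Fin 32)) :
    ∫ x, g (x 0) * (starRingEnd ℂ) (g (x 0)) ∂μ = ((∫ x, gg (x 0) ∂μ : ℝ) : ℂ) := by
  rw [← integral_complex_ofReal]
  congr 1
  ext x
  exact g_mul_conj _

/-- Orthogonality of the characters of the circle, for the Lebesgue measure. -/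
lemma integral_fourier (n : ℤ) : ∫ t : UnitAddCircle, fourier n t = if n = 0 then 1 else 0 := by
  have h1 := congrFun (fourierCoeff_fourier (T := 1) n) 0
  rw [fourierCoeff] at h1
  simp only [neg_zero, fourier_zero, one_smul] at h1
  have h2 := AddCircle.integral_haarAddCircle (T := 1) (f := fun t => (fourier n t : ℂ))
  rw [h2] at h1
  simp only [inv_one, one_smul] at h1
  rw [h1, Pi.single_apply]
  simp only [eq_comm]

theorem lebesgue {μ : Measure (ℤ → Fin 32)} (hμ : IsInvariantOn sg μ) :
    HasLebesgueComponent μ := by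
  have h1 : IsProbabilityMeasure μ := hμ.1
  have hpos := mass_pos hμ
  set c := ∫ x, gg (x 0) ∂μ with hc
  refine ⟨ff, ?_, ?_, ENNReal.ofReal c • volume, ?_, ?_, ?_⟩
  · apply MemLp.of_bound (measurable_gx 0).aestronglyMeasurable 1
    exact Filter.Eventually.of_forall fun x => norm_g_le _
  · intro h0
    have h2 := integral_self μ
    have h3 : ∫ x, g (x 0) * (starRingEnd ℂ) (g (x 0)) ∂μ = 0 := by
      rw [← integral_zero (α := ℤ → Fin 32) (μ := μ) (G := ℂ)]
      apply integral_congr_ae
      filter_upwards [h0] with x hx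
      have : g (x 0) = 0 := hx
      rw [this, zero_mul]
    rw [h3] at h2
    have h4 : c = 0 := by exact_mod_cast h2.symm
    linarith
  · constructor
    simp only [Measure.smul_apply, smul_eq_mul]
    exact ENNReal.mul_lt_top ENNReal.ofReal_lt_top (measure_lt_top _ _)
  · exact Measure.smul_absolutelyContinuous
  · intro n
    rw [integral_smul_measure, integral_fourier, ENNReal.toReal_ofReal hpos.le]
    have h2 : ∀ x : ℤ → Fin 32, ff (shift n x) * (starRingEnd ℂ) (ff x) =
        g (x n) * (starRingEnd ℂ) (g (x 0)) := by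
      intro x
      simp only [ff, shift, zero_add]
    simp only [h2]
    by_cases hn : n = 0
    · subst hn
      rw [integral_self, if_pos rfl, ← hc, Complex.real_smul, mul_one]
    · rw [if_neg hn, corr_zero' hμ hn, smul_zero]

/-- If the subshift is finite then it has a nonzero period. -/
theorem infinite_subshift {μ : Measure (ℤ → Fin 32)} (hμ : IsInvariantOn sg μ) :
    (subshift sg).Infinite := by
  intro hfin
  -- the shift maps the subshift into itself
  have hmaps : Set.MapsTo (shift 1) (subshift sg) (subshift sg) := by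
    intro x hx i n
    obtain ⟨a, k, h⟩ := hx (i + 1) n
    refine ⟨a, k, ?_⟩
    convert h using 1
    apply List.map_congr_left
    intro j _
    simp only [shift]
    congr 1
    ring
  have hinj : Set.InjOn (shift 1) (subshift sg) := by
    intro x _ y _ hxy
    ext i
    have := congrFun hxy (i - 1)
    simp only [shift, sub_add_cancel] at this
    rw [this]
  have : Finite (subshift sg) := hfin
  set φ : subshift sg → subshift sg := fun x => ⟨shift 1 x.1, hmaps x.2⟩ with hφ
  have hφinj : Function.Injective φ := by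
    intro x y hxy
    apply Subtype.ext
    exact hinj x.2 y.2 (congrArg Subtype.val hxy)
  obtain ⟨p, hp, hper⟩ : ∃ p : ℕ, 1 ≤ p ∧ φ^[p] = id := by
    have hb : Function.Bijective φ := ⟨hφinj, Finite.injective_iff_surjective.mp hφinj⟩
    set e : Equiv.Perm (subshift sg) := Equiv.ofBijective φ hb with he
    have hfinP : Finite (Equiv.Perm (subshift sg)) := inferInstance
    refine ⟨orderOf e, orderOf_pos e, ?_⟩
    have h1 := pow_orderOf_eq_one e
    have h2 : ((e ^ orderOf e : Equiv.Perm (subshift sg)) : subshift sg → subshift sg) =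
        φ^[orderOf e] := by
      rw [← Equiv.Perm.iterate_eq_pow]
      rfl
    rw [← h2, h1]
    rfl
  have hiter : ∀ (n : ℕ) (x : subshift sg), (φ^[n] x).1 = shift (n : ℤ) x.1 := by
    intro n
    induction n with
    | zero => intro x; ext i; simp [shift]
    | succ n ih =>
      intro x
      rw [Function.iterate_succ_apply', hφ]
      simp only
      rw [← hφ, ih, shift_shift]
      congr 1
      push_cast
      ring
  have hperiod : ∀ x ∈ subshift sg, x p = x 0 := by
    intro x hx
    have h1 := hiter p ⟨x, hx⟩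
    rw [hper] at h1
    simp only [id] at h1
    have h2 := congrFun h1 0
    simp only [shift, zero_add] at h2
    exact h2.symm
  have h0 := corr_zero hμ hp
  have h1 : ∫ x, g (x p) * (starRingEnd ℂ) (g (x 0)) ∂μ =
      ∫ x, g (x 0) * (starRingEnd ℂ) (g (x 0)) ∂μ := by
    apply integral_congr_ae
    have hx : ∀ᵐ x ∂μ, x ∈ subshift sg := hμ.2.1
    filter_upwards [hx] with x hx
    rw [hperiod x hx]
  rw [h0, integral_self] at h1
  have hpos := mass_pos hμ
  have h2 : ∫ x, gg (x 0) ∂μ = 0 := by exact_mod_cast h1.symm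
  linarith

end Pool.Agent.Lib.MP_db984e_an
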