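import Pool.Agent.Lib.MP_db984e_an.Corr

open MeasureTheory

namespace Pool.Agent.Lib.MP_db984e_an

/-- The window of `x` of length `n` starting at `i`. -/
def win {m : ℕ} (x : ℤ → Fin m) (i : ℤ) (n : ℕ) : List (Fin m) :=
  (List.range n).map fun j : ℕ => x (i + j)

lemma length_win {m : ℕ} (x : ℤ → Fin m) (i : ℤ) (n : ℕ) : (win x i n).length = n := by
  simp [win]

lemma G_win (x : ℤ → Fin 32) (n : ℕ) {j : ℕ} (hj : j < n) : G (win x 0 n) j = g (x j) := by
  unfold G win
  rw [List.getElem?_map, List.getElem?_range hj]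
  simp

/-- The sum of lagged products along an orbit. -/
lemma sum_le_of_mem {x : ℤ → Fin 32} (hx : x ∈ subshift sg) {k : ℕ} (hk : 1 ≤ k) (n N : ℕ) :
    ‖∑ i ∈ Finset.range N, g (x (i + k : ℤ)) * (starRingEnd ℂ) (g (x i))‖ * 3 ^ n ≤
      k * N + (92 * 4 ^ n + 3 * k) * 3 ^ n := by
  obtain ⟨a, K, h⟩ := hx 0 N
  have h1 := norm_ac_word hk n (w := win x 0 N) (K := K) (a := a) h
  rw [length_win] at h1
  have h2 : ∑ i ∈ Finset.range N, g (x (i + k : ℤ)) * (starRingEnd ℂ) (g (x i)) - ac k (win x 0 N) =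
      ∑ i ∈ Finset.range N, (g (x (i + k : ℤ)) - G (win x 0 N) (i + k)) *
        (starRingEnd ℂ) (g (x i)) := by
    unfold ac
    rw [length_win, ← Finset.sum_sub_distrib]
    apply Finset.sum_congr rfl
    intro i hi
    rw [Finset.mem_range] at hi
    rw [G_win x N hi]
    ring
  have h3 : ‖∑ i ∈ Finset.range N, (g (x (i + k : ℤ)) - G (win x 0 N) (i + k)) *
        (starRingEnd ℂ) (g (x i))‖ ≤ k := by
    refine (norm_sum_le _ _).trans ?_
    have h4 : ∀ i ∈ Finset.range N, ‖(g (x (i + k : ℤ)) - G (win x 0 N) (i + k)) *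
        (starRingEnd ℂ) (g (x i))‖ ≤ if N ≤ i + k then 1 else 0 := by
      intro i _
      split_ifs with h
      · rw [G_of_le (by rw [length_win]; exact h), sub_zero, norm_mul, RCLike.norm_conj]
        exact mul_le_one₀ (norm_g_le _) (norm_nonneg _) (norm_g_le _)
      · rw [G_win x N (not_le.mp h)]
        push_cast
        rw [sub_self, zero_mul, norm_zero]
    refine (Finset.sum_le_sum h4).trans ?_
    rw [Finset.sum_boole]
    have h5 : ((Finset.range N).filter (fun i => N ≤ i + k)) ⊆ Finset.Ico (N - k) N := by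
      intro i hi
      simp only [Finset.mem_filter, Finset.mem_range] at hi
      simp only [Finset.mem_Ico]
      omega
    have h6 := Finset.card_le_card h5
    rw [Nat.card_Ico] at h6
    have h7 : ((Finset.range N).filter (fun i => N ≤ i + k)).card ≤ k := by omega
    exact_mod_cast h7
  rw [← h2] at h3
  have h4 : ‖∑ i ∈ Finset.range N, g (x (i + k : ℤ)) * (starRingEnd ℂ) (g (x i))‖ ≤
      ‖ac k (win x 0 N)‖ + k := by
    have := norm_add_le (∑ i ∈ Finset.range N, g (x (i + k : ℤ)) * (starRingEnd ℂ) (g (x i)) -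
      ac k (win x 0 N)) (ac k (win x 0 N))
    rw [sub_add_cancel] at this
    linarith
  have h5 : (0:ℝ) < 3 ^ n := by positivity
  nlinarith

lemma measurable_shift {m : ℕ} (n : ℤ) : Measurable (shift n : (ℤ → Fin m) → (ℤ → Fin m)) :=
  measurable_pi_lambda _ fun _ => measurable_pi_apply _

lemma shift_shift {m : ℕ} (a b : ℤ) (x : ℤ → Fin m) : shift a (shift b x) = shift (a + b) x := by
  ext i
  simp only [shift]
  congr 2
  ring

lemma map_shift {m : ℕ} {μ : Measure (ℤ → Fin m)} (h : μ.map (shift 1) = μ) (n : ℕ) :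
    μ.map (shift (n : ℤ)) = μ := by
  induction n with
  | zero =>
    have : (shift ((0 : ℕ) : ℤ) : (ℤ → Fin m) → (ℤ → Fin m)) = id := by
      ext x i; simp [shift]
    rw [this, Measure.map_id]
  | succ n ih =>
    have h1 : (shift ((n + 1 : ℕ) : ℤ) : (ℤ → Fin m) → (ℤ → Fin m)) = shift 1 ∘ shift (n : ℤ) := by
      ext x i
      simp only [Function.comp, shift_shift]
      push_cast
      rw [add_comm]
    rw [h1, ← Measure.map_map (measurable_shift 1) (measurable_shift n), ih, h]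

/-- The function on the shift space. -/
noncomputable def ff (x : ℤ → Fin 32) : ℂ := g (x 0)

lemma measurable_g : Measurable g := measurable_of_finite g

lemma measurable_gx (n : ℤ) : Measurable (fun x : ℤ → Fin 32 => g (x n)) :=
  measurable_g.comp (measurable_pi_apply n)

lemma measurable_prod (a b : ℤ) :
    Measurable (fun x : ℤ → Fin 32 => g (x a) * (starRingEnd ℂ) (g (x b))) :=
  (measurable_gx a).mul (Complex.continuous_conj.measurable.comp (measurable_gx b))

lemma integrable_prod (μ : Measure (ℤ → Fin 32)) [IsFiniteMeasure μ] (a b : ℤ) :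
    Integrable (fun x : ℤ → Fin 32 => g (x a) * (starRingEnd ℂ) (g (x b))) μ := by
  apply Integrable.of_bound (measurable_prod a b).aestronglyMeasurable 1
  apply Filter.Eventually.of_forall
  intro x
  rw [norm_mul, RCLike.norm_conj]
  exact mul_le_one₀ (norm_g_le _) (norm_nonneg _) (norm_g_le _)

lemma integral_shift {μ : Measure (ℤ → Fin 32)} (h : μ.map (shift 1) = μ) (j : ℕ) (a b : ℤ) :
    ∫ x, g (x (a + j)) * (starRingEnd ℂ) (g (x (b + j))) ∂μ =
      ∫ x, g (x a) * (starRingEnd ℂ) (g (x b)) ∂μ := by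
  conv_rhs => rw [← map_shift h j]
  rw [integral_map (measurable_shift _).aemeasurable (measurable_prod a b).aestronglyMeasurable]
  rfl

lemma corr_zero {μ : Measure (ℤ → Fin 32)} (hμ : IsInvariantOn sg μ) {k : ℕ} (hk : 1 ≤ k) :
    ∫ x, g (x k) * (starRingEnd ℂ) (g (x 0)) ∂μ = 0 := by
  obtain ⟨h1, h2, h3⟩ := hμ
  set γ := ∫ x, g (x k) * (starRingEnd ℂ) (g (x 0)) ∂μ with hγ
  have hbound : ∀ n N : ℕ, (N : ℝ) * ‖γ‖ * 3 ^ n ≤ k * N + (92 * 4 ^ n + 3 * k) * 3 ^ n := by
    intro n N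
    have e1 : (N : ℂ) * γ =
        ∫ x, ∑ i ∈ Finset.range N, g (x (i + k : ℤ)) * (starRingEnd ℂ) (g (x i)) ∂μ := by
      rw [integral_finsetSum _ fun i _ => integrable_prod μ _ _]
      have : ∀ i ∈ Finset.range N, ∫ x, g (x (i + k : ℤ)) * (starRingEnd ℂ) (g (x i)) ∂μ = γ := by
        intro i _
        have := integral_shift h3 i (k : ℤ) 0
        rw [zero_add, add_comm] at this
        exact this
      rw [Finset.sum_congr rfl this, Finset.sum_const, Finset.card_range, nsmul_eq_mul]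
    have e2 : ‖∫ x, ∑ i ∈ Finset.range N, g (x (i + k : ℤ)) * (starRingEnd ℂ) (g (x i)) ∂μ‖ ≤
        (k * N + (92 * 4 ^ n + 3 * k) * 3 ^ n) / 3 ^ n := by
      have hae : ∀ᵐ x ∂μ, ‖∑ i ∈ Finset.range N, g (x (i + k : ℤ)) * (starRingEnd ℂ) (g (x i))‖ ≤
          (k * N + (92 * 4 ^ n + 3 * k) * 3 ^ n) / 3 ^ n := by
        have hx : ∀ᵐ x ∂μ, x ∈ subshift sg := h2
        filter_upwards [hx] with x hx
        rw [le_div_iff₀ (by positivity)]
        exact sum_le_of_mem hx hk n N
      have := norm_integral_le_of_norm_le_const hae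
      simpa using this
    rw [← e1, norm_mul, Complex.norm_natCast, le_div_iff₀ (by positivity)] at e2
    exact e2
  by_contra hne
  have hpos : 0 < ‖γ‖ := norm_pos_iff.mpr hne
  -- choose n with 3^n ‖γ‖ > k
  obtain ⟨n, hn⟩ := pow_unbounded_of_one_lt ((k + 1) / ‖γ‖) (show (1:ℝ) < 3 by norm_num)
  rw [div_lt_iff₀ hpos] at hn
  obtain ⟨N, hN⟩ := exists_nat_gt ((92 * 4 ^ n + 3 * k) * 3 ^ n : ℝ)
  have h4 := hbound n N
  have hN0 : (0:ℝ) < N := lt_of_le_of_lt (by positivity) hN
  have h5 : (N : ℝ) * (k + 1) < N * (3 ^ n * ‖γ‖) := by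
    exact mul_lt_mul_of_pos_left hn hN0
  nlinarith

lemma corr_zero' {μ : Measure (ℤ → Fin 32)} (hμ : IsInvariantOn sg μ) {n : ℤ} (hn : n ≠ 0) :
    ∫ x, g (x n) * (starRingEnd ℂ) (g (x 0)) ∂μ = 0 := by
  rcases lt_trichotomy n 0 with h | h | h
  · obtain ⟨k, rfl⟩ : ∃ k : ℕ, n = -(k : ℤ) := ⟨n.natAbs, by omega⟩
    have hk : 1 ≤ k := by omega
    have h1 := integral_shift hμ.2.2 k (-(k : ℤ)) 0
    rw [← h1]
    have h2 := corr_zero hμ hk
    have h3 : (starRingEnd ℂ) (∫ x, g (x k) * (starRingEnd ℂ) (g (x 0)) ∂μ) =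
        ∫ x, g (x 0) * (starRingEnd ℂ) (g (x k)) ∂μ := by
      rw [← integral_conj]
      congr 1
      ext x
      rw [map_mul, Complex.conj_conj, mul_comm]
    rw [h2, map_zero] at h3
    rw [neg_add_cancel, zero_add]
    exact h3.symm
  · exact absurd h hn
  · obtain ⟨k, rfl⟩ : ∃ k : ℕ, n = (k : ℤ) := ⟨n.toNat, by omega⟩
    exact corr_zero hμ (by omega)

end Pool.Agent.Lib.MP_db984e_an
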