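import Pool.Agent.Lib.MP_db984e_an.Bound

namespace Pool.Agent.Lib.MP_db984e_an

lemma mem5_0 : ∀ i : Fin 32, i ∈ W sg 5 0 := by decide +kernel
lemma mem5_8 : ∀ i : Fin 32, i ∈ W sg 5 8 := by decide +kernel
lemma mem5_16 : ∀ i : Fin 32, i ∈ W sg 5 16 := by decide +kernel
lemma mem5_24 : ∀ i : Fin 32, i ∈ W sg 5 24 := by decide +kernel

lemma eq_rot' : ∀ a : Fin 32, ∃ p : Fin 8, a = rot p 0 ∨ a = rot p 8 ∨ a = rot p 16 ∨
    a = rot p 24 := by decide +kernel

lemma rot_inv : ∀ (p : Fin 8) (i : Fin 32), rot p (rot (8 - p) i) = i := by decide +kernel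

lemma mem5 (i j : Fin 32) : i ∈ W sg 5 j := by
  obtain ⟨p, hp⟩ := eq_rot' j
  rcases hp with h | h | h | h <;> rw [h, W_rot, List.mem_map]
  · exact ⟨rot (8 - p) i, mem5_0 _, rot_inv p i⟩
  · exact ⟨rot (8 - p) i, mem5_8 _, rot_inv p i⟩
  · exact ⟨rot (8 - p) i, mem5_16 _, rot_inv p i⟩
  · exact ⟨rot (8 - p) i, mem5_24 _, rot_inv p i⟩

theorem primitive_sg : IsPrimitive sg := by
  refine ⟨5, by norm_num, fun i j => ?_⟩
  rw [matrix_pow_apply, List.count_pos_iff]
  exact mem5 i j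

lemma sumL : ∀ i : Fin 32, (∑ j : Fin 32, if j.val / 8 ≤ 1 then (sg j).count i else 0) = 2 := by
  decide +kernel

lemma sumS : ∀ i : Fin 32, (∑ j : Fin 32, if j.val / 8 ≤ 1 then 0 else (sg j).count i) =
    if i.val / 8 ≤ 1 then 1 else 2 := by decide +kernel

lemma colL : ∀ j : Fin 32, (∑ i : Fin 32, if i.val / 8 ≤ 1 then (sg j).count i else 0) =
    if j.val / 8 ≤ 1 then 2 else 1 := by decide +kernel

lemma colS : ∀ j : Fin 32, (∑ i : Fin 32, if i.val / 8 ≤ 1 then 0 else (sg j).count i) = 2 := by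
  decide +kernel

/-- The right Perron-Frobenius eigenvector. -/
noncomputable def vr (i : Fin 32) : ℝ := if i.val / 8 ≤ 1 then √2 / 2 else 1

/-- The left Perron-Frobenius eigenvector. -/
noncomputable def vl (i : Fin 32) : ℝ := if i.val / 8 ≤ 1 then √2 else 1

lemma right_eigen (i : Fin 32) :
    ∑ j : Fin 32, ((sg j).count i : ℝ) * vr j = (2 + √2) * vr i := by
  have h : √2 * √2 = 2 := Real.mul_self_sqrt (by norm_num)
  have h1 : ∀ j : Fin 32, ((sg j).count i : ℝ) * vr j =
      (((if j.val / 8 ≤ 1 then (sg j).count i else 0 : ℕ) : ℝ)) * (√2 / 2) +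
      (((if j.val / 8 ≤ 1 then 0 else (sg j).count i : ℕ) : ℝ)) := by
    intro j
    unfold vr
    split_ifs <;> simp
  rw [Finset.sum_congr rfl fun j _ => h1 j, Finset.sum_add_distrib, ← Finset.sum_mul,
    ← Nat.cast_sum, ← Nat.cast_sum, sumL, sumS]
  unfold vr
  split_ifs
  · push_cast; linear_combination (-1 / 2) * h
  · push_cast; ring

lemma left_eigen (j : Fin 32) :
    ∑ i : Fin 32, vl i * ((sg j).count i : ℝ) = (2 + √2) * vl j := by
  have h : √2 * √2 = 2 := Real.mul_self_sqrt (by norm_num)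
  have h1 : ∀ i : Fin 32, vl i * ((sg j).count i : ℝ) =
      (((if i.val / 8 ≤ 1 then (sg j).count i else 0 : ℕ) : ℝ)) * √2 +
      (((if i.val / 8 ≤ 1 then 0 else (sg j).count i : ℕ) : ℝ)) := by
    intro i
    unfold vl
    split_ifs <;> simp [mul_comm]
  rw [Finset.sum_congr rfl fun j _ => h1 j, Finset.sum_add_distrib, ← Finset.sum_mul,
    ← Nat.cast_sum, ← Nat.cast_sum, colL, colS]
  unfold vl
  split_ifs
  · push_cast; linear_combination (-1) * h
  · push_cast; ring

lemma vr_pos (i : Fin 32) : 0 < vr i := by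
  unfold vr
  split_ifs
  · positivity
  · norm_num

lemma vl_pos (i : Fin 32) : 0 < vl i := by
  unfold vl
  split_ifs
  · positivity
  · norm_num

theorem isPF_iff (θ : ℝ) : IsPerronFrobenius sg θ ↔ θ = 2 + √2 := by
  constructor
  · rintro ⟨v, hv, hS⟩
    have h1 : ∀ i, ∑ j, ((sg j).count i : ℝ) * v j = θ * v i := by
      intro i
      have := congrFun hS i
      simpa [Matrix.mulVec, dotProduct, substMatrix] using this
    have h2 : ∑ i, vl i * ∑ j, ((sg j).count i : ℝ) * v j = θ * ∑ i, vl i * v i := by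
      rw [Finset.mul_sum]
      apply Finset.sum_congr rfl
      intro i _
      rw [h1]; ring
    have h3 : ∑ i, vl i * ∑ j, ((sg j).count i : ℝ) * v j = (2 + √2) * ∑ i, vl i * v i := by
      simp_rw [Finset.mul_sum]
      rw [Finset.sum_comm]
      apply Finset.sum_congr rfl
      intro j _
      have := left_eigen j
      calc ∑ i, vl i * (((sg j).count i : ℝ) * v j) = (∑ i, vl i * ((sg j).count i : ℝ)) * v j := by
            rw [Finset.sum_mul]
            apply Finset.sum_congr rfl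
            intro i _; ring
        _ = (2 + √2) * (vl j * v j) := by rw [this]; ring
    have h4 : 0 < ∑ i, vl i * v i :=
      Finset.sum_pos (fun i _ => mul_pos (vl_pos i) (hv i)) ⟨0, Finset.mem_univ _⟩
    rw [h3] at h2
    exact (mul_right_cancel₀ h4.ne' h2).symm
  · rintro rfl
    refine ⟨vr, vr_pos, ?_⟩
    ext i
    have := right_eigen i
    simpa [Matrix.mulVec, dotProduct, substMatrix] using this

lemma ne_int (n : ℤ) : 2 + √2 ≠ (n : ℝ) := by
  intro h
  have h7 := sqrt2_lt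
  have h8 := lt_sqrt2
  have h1 : (3 : ℝ) < n := by rw [← h]; linarith
  have h2 : (n : ℝ) < 4 := by rw [← h]; linarith
  have h3 : (3 : ℤ) < n := by exact_mod_cast h1
  have h4 : n < (4 : ℤ) := by exact_mod_cast h2
  omega

end Pool.Agent.Lib.MP_db984e_an
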