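import Pool.Agent.Lib.MP_db984e_an.Defs

namespace Pool.Agent.Lib.MP_db984e_an

section general

variable {α β : Type*}

lemma desub_prefix (f : α → List β) {M : ℕ} (hM : ∀ a, (f a).length ≤ M) :
    ∀ (u : List α) (p : List β), p <+: u.flatMap f →
      ∃ (v : List α) (q : List β), v <+: u ∧ p = v.flatMap f ++ q ∧ q.length ≤ M := by
  intro u
  induction u with
  | nil =>
    intro p hp
    rw [List.flatMap_nil, List.prefix_nil] at hp
    subst hp
    exact ⟨[], [], List.prefix_rfl, rfl, Nat.zero_le _⟩
  | cons a u ih =>
    intro p hp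
    rw [List.flatMap_cons] at hp
    rcases List.prefix_or_prefix_of_prefix hp (List.prefix_append (f a) (u.flatMap f)) with h | h
    · exact ⟨[], p, List.nil_prefix, rfl, h.length_le.trans (hM a)⟩
    · obtain ⟨p', rfl⟩ := h
      rw [List.prefix_append_right_inj] at hp
      obtain ⟨v, q, hv, rfl, hq⟩ := ih p' hp
      refine ⟨a :: v, q, ?_, by rw [List.flatMap_cons, List.append_assoc], hq⟩
      rw [List.cons_prefix_cons]
      exact ⟨rfl, hv⟩

lemma desub (f : α → List β) {M : ℕ} (hM : ∀ a, (f a).length ≤ M) :
    ∀ (u : List α) (w : List β), w <:+: u.flatMap f →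
      ∃ (s : List β) (v : List α) (q : List β), v <:+: u ∧ w = s ++ v.flatMap f ++ q ∧
        s.length ≤ M ∧ q.length ≤ M := by
  intro u
  induction u with
  | nil =>
    intro w hw
    rw [List.flatMap_nil, List.infix_nil] at hw
    subst hw
    exact ⟨[], [], [], List.infix_rfl, rfl, Nat.zero_le _, Nat.zero_le _⟩
  | cons a u ih =>
    rintro w ⟨l, r, hlr⟩
    rw [List.flatMap_cons, List.append_assoc, List.append_eq_append_iff] at hlr
    rcases hlr with ⟨c, hc1, hc2⟩ | ⟨c, hc1, hc2⟩
    · rw [List.append_eq_append_iff] at hc2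
      rcases hc2 with ⟨e, he1, he2⟩ | ⟨e, he1, he2⟩
      · refine ⟨w, [], [], ?_, by simp, ?_, Nat.zero_le _⟩
        · exact List.nil_infix
        · have h1 := hM a
          rw [hc1, he1] at h1
          simp only [List.length_append] at h1
          omega
      · have hp : e <+: u.flatMap f := ⟨r, he2.symm⟩
        obtain ⟨v, q, hv, rfl, hq⟩ := desub_prefix f hM u e hp
        refine ⟨c, v, q, ?_, by rw [he1, List.append_assoc], ?_, hq⟩
        · exact hv.isInfix.trans (List.suffix_cons a u).isInfix
        · have h1 := hM a
          rw [hc1] at h1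
          simp only [List.length_append] at h1
          omega
    · have hin : w <:+: u.flatMap f := ⟨c, r, by rw [hc2, List.append_assoc]⟩
      obtain ⟨s, v, q, hv, hw, hs, hq⟩ := ih w hin
      exact ⟨s, v, q, hv.trans (List.suffix_cons a u).isInfix, hw, hs, hq⟩

end general

variable {m : ℕ} (σ : Fin m → List (Fin m))

lemma extend_append (u v : List (Fin m)) : extend σ (u ++ v) = extend σ u ++ extend σ v := by
  simp [extend]

lemma iter_append (n : ℕ) (u v : List (Fin m)) :
    (extend σ)^[n] (u ++ v) = (extend σ)^[n] u ++ (extend σ)^[n] v := by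
  induction n generalizing u v with
  | zero => rfl
  | succ n ih => rw [Function.iterate_succ_apply, extend_append, ih]; rfl

lemma iter_nil (n : ℕ) : (extend σ)^[n] [] = [] := by
  induction n with
  | zero => rfl
  | succ n ih => rw [Function.iterate_succ_apply]; exact ih

/-- The level-`n` word of the letter `a`. -/
def W (n : ℕ) (a : Fin m) : List (Fin m) := (extend σ)^[n] [a]

lemma iter_eq_flatMap (n : ℕ) (u : List (Fin m)) : (extend σ)^[n] u = u.flatMap (W σ n) := by
  induction u with
  | nil => rw [iter_nil]; rfl
  | cons a u ih =>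
    rw [List.flatMap_cons, ← ih, W, ← iter_append]
    rfl

lemma W_zero (a : Fin m) : W σ 0 a = [a] := rfl

lemma W_succ (n : ℕ) (a : Fin m) : W σ (n + 1) a = (σ a).flatMap (W σ n) := by
  rw [W, Function.iterate_succ_apply, ← iter_eq_flatMap]
  congr 1
  simp [extend]

lemma W_succ' (n : ℕ) (a : Fin m) : W σ (n + 1) a = (W σ n a).flatMap σ := by
  rw [W, Function.iterate_succ_apply']
  rfl

lemma W_add (n k : ℕ) (a : Fin m) : W σ (n + k) a = (W σ k a).flatMap (W σ n) := by
  rw [W, Function.iterate_add_apply, iter_eq_flatMap]
  rfl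

/-- The number of occurrences of a letter in a level-`k` word is the entry of the power of the
substitution matrix. -/
lemma matrix_pow_apply (k : ℕ) (i j : Fin m) :
    (substMatrix σ ^ k) i j = (W σ k j).count i := by
  induction k generalizing i j with
  | zero =>
    rw [pow_zero, W_zero, Matrix.one_apply, List.count_singleton]
    by_cases h : i = j
    · subst h; simp
    · simp [h, Ne.symm h]
  | succ k ih =>
    rw [pow_succ', Matrix.mul_apply, W_succ', List.count_flatMap]
    simp_rw [ih]
    generalize W σ k j = w
    induction w with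
    | nil => simp
    | cons b w ihw =>
      rw [List.map_cons, List.sum_cons, ← ihw]
      simp_rw [List.count_cons, mul_add, Finset.sum_add_distrib]
      rw [add_comm]
      congr 1
      simp [substMatrix]

end Pool.Agent.Lib.MP_db984e_an
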